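import Pool.Agent.TH716.TW.Defs

/-!
The fields `K = ℚ(√Δ)` and `M = K(θ)`, for job 1416 (TW12).
-/

set_option autoImplicit false

namespace Pool.Agent.TH699.TW12

open Polynomial NumberField Module

theorem ratCast_aux (L : Type) [Field L] (f : ℚ →+* L) (a : ℚ) : f a = (a : L) := eq_ratCast f a

/-- the quadratic field -/
theorem exists_K (Δ : ℚ) (hΔ : Δ < 0) : ∃ (K : Type) (_ : Field K) (_ : NumberField K) (r : K),
    r ^ 2 = (Δ : K) ∧ ∀ x : K, ∃ p q : ℚ, x = (p : K) + (q : K) * r := by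
  have hm : (X ^ 2 - C Δ : ℚ[X]).Monic := by monicity!
  have hd : (X ^ 2 - C Δ : ℚ[X]).natDegree = 2 := by compute_degree!
  have hirr : Irreducible (X ^ 2 - C Δ : ℚ[X]) := by
    rw [hm.irreducible_iff_roots_eq_zero_of_degree_le_three (by rw [hd]) (by rw [hd]; norm_num)]
    rw [Multiset.eq_zero_iff_forall_notMem]
    intro z hz
    rw [mem_roots hm.ne_zero, IsRoot.def] at hz
    simp at hz
    nlinarith [sq_nonneg z]
  have := Fact.mk hirr
  have hcast : ∀ a : ℚ, AdjoinRoot.of (X ^ 2 - C Δ : ℚ[X]) a =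
      ((a : ℚ) : AdjoinRoot (X ^ 2 - C Δ : ℚ[X])) := fun a =>
    ratCast_aux (AdjoinRoot (X ^ 2 - C Δ : ℚ[X])) (AdjoinRoot.of (X ^ 2 - C Δ : ℚ[X])) a
  refine ⟨AdjoinRoot (X ^ 2 - C Δ : ℚ[X]), inferInstance, inferInstance,
    AdjoinRoot.root _, ?_, ?_⟩
  · have h := AdjoinRoot.eval₂_root (X ^ 2 - C Δ : ℚ[X])
    rw [eval₂_sub, eval₂_pow, eval₂_X, eval₂_C, hcast Δ] at h
    exact sub_eq_zero.mp h
  · intro z
    obtain ⟨p, rfl⟩ := AdjoinRoot.mk_surjective z
    have h1 : AdjoinRoot.mk (X ^ 2 - C Δ : ℚ[X]) p =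
        AdjoinRoot.mk (X ^ 2 - C Δ : ℚ[X]) (p %ₘ (X ^ 2 - C Δ : ℚ[X])) := by
      conv_lhs => rw [← modByMonic_add_div p (X ^ 2 - C Δ : ℚ[X])]
      rw [map_add, map_mul, AdjoinRoot.mk_self, zero_mul, add_zero]
    have hd1 : (p %ₘ (X ^ 2 - C Δ : ℚ[X])).natDegree ≤ 1 := by
      have := natDegree_modByMonic_lt p hm (by
        intro h
        rw [h] at hd
        simp at hd)
      rw [hd] at this
      omega
    obtain ⟨β, α, h⟩ := exists_eq_X_add_C_of_natDegree_le_one hd1
    refine ⟨α, β, ?_⟩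
    rw [h1, h, map_add, map_mul, AdjoinRoot.mk_X, AdjoinRoot.mk_C, AdjoinRoot.mk_C,
      hcast β, hcast α]
    rw [add_comm]

/-- the cubic extension -/
theorem exists_M (K : Type) [Field K] [NumberField K]
    (hK : ∀ z : K, z ^ 3 + z ^ 2 - 2 * z - 1 ≠ 0) :
    ∃ (M : Type) (_ : Field M) (_ : NumberField M) (_ : Algebra K M) (t : M),
      t ^ 3 + t ^ 2 - 2 * t - 1 = 0 ∧ finrank K M = 3 ∧
      (∀ x : M, ∃ a b c : K, x = algebraMap K M a + algebraMap K M b * t +
        algebraMap K M c * t ^ 2) ∧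
      (∀ a b c : K, algebraMap K M a + algebraMap K M b * t + algebraMap K M c * t ^ 2 = 0 →
        a = 0 ∧ b = 0 ∧ c = 0) := by
  set g : K[X] := X ^ 3 + X ^ 2 - 2 * X - 1 with hg
  have hm : g.Monic := by
    rw [hg]
    monicity!
  have hd : g.natDegree = 3 := by
    rw [hg]
    compute_degree!
  have hirr : Irreducible g := by
    rw [hm.irreducible_iff_roots_eq_zero_of_degree_le_three (by rw [hd]; norm_num) (by rw [hd])]
    rw [Multiset.eq_zero_iff_forall_notMem]
    intro z hz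
    rw [mem_roots hm.ne_zero, IsRoot.def] at hz
    apply hK z
    rw [hg] at hz
    simpa using hz
  have := Fact.mk hirr
  have hfin : Module.Finite K (AdjoinRoot g) := (AdjoinRoot.powerBasis hirr.ne_zero).finite
  have hNF : NumberField (AdjoinRoot g) := NumberField.of_module_finite K (AdjoinRoot g)
  refine ⟨AdjoinRoot g, inferInstance, hNF, inferInstance, AdjoinRoot.root g, ?_, ?_, ?_, ?_⟩
  · have h := AdjoinRoot.eval₂_root g
    rw [hg] at h
    simp only [eval₂_sub, eval₂_add, eval₂_pow, eval₂_X, eval₂_mul, eval₂_one, eval₂_ofNat] at h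
    exact h
  · rw [(AdjoinRoot.powerBasis hirr.ne_zero).finrank, AdjoinRoot.powerBasis_dim, hd]
  · intro z
    obtain ⟨p, rfl⟩ := AdjoinRoot.mk_surjective z
    have h1 : AdjoinRoot.mk g p = AdjoinRoot.mk g (p %ₘ g) := by
      conv_lhs => rw [← modByMonic_add_div p g]
      rw [map_add, map_mul, AdjoinRoot.mk_self, zero_mul, add_zero]
    have hd1 : (p %ₘ g).natDegree < 3 := by
      have := natDegree_modByMonic_lt p hm (by
        intro h
        rw [h] at hd
        simp at hd)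
      rwa [hd] at this
    have h2 := Polynomial.as_sum_range' (p %ₘ g) 3 hd1
    refine ⟨(p %ₘ g).coeff 0, (p %ₘ g).coeff 1, (p %ₘ g).coeff 2, ?_⟩
    rw [h1]
    conv_lhs => rw [h2]
    rw [Finset.sum_range_succ, Finset.sum_range_succ, Finset.sum_range_succ, Finset.sum_range_zero]
    simp only [← C_mul_X_pow_eq_monomial, map_add, map_mul, map_pow, AdjoinRoot.mk_X,
      AdjoinRoot.mk_C, zero_add, pow_zero, mul_one, pow_one]
    rfl
  · intro a b c h
    have h1 : AdjoinRoot.mk g (C a + C b * X + C c * X ^ 2) = 0 := by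
      simp only [map_add, map_mul, map_pow, AdjoinRoot.mk_X, AdjoinRoot.mk_C]
      exact h
    rw [AdjoinRoot.mk_eq_zero] at h1
    have h2 : (C a + C b * X + C c * X ^ 2 : K[X]) = 0 := by
      apply Polynomial.eq_zero_of_dvd_of_natDegree_lt h1
      rw [hd]
      have : (C a + C b * X + C c * X ^ 2 : K[X]).natDegree ≤ 2 := by compute_degree
      omega
    have c0 := congrArg (fun p : K[X] => p.coeff 0) h2
    have c1 := congrArg (fun p : K[X] => p.coeff 1) h2
    have c2 := congrArg (fun p : K[X] => p.coeff 2) h2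
    simp [coeff_X, coeff_C] at c0 c1 c2
    exact ⟨c0, c1, c2⟩

end Pool.Agent.TH699.TW12
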