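import Pool.Agent.TH699.TW12.Val
import Pool.Agent.TH699.TW12.Fields

/-!
Algebra for job 1416 (TW12): the situation `Sit` for `ℚ(√Δ)`, the norm form, the third point.
-/

set_option autoImplicit false
set_option linter.unusedSectionVars false

namespace Pool.Agent.TH699.TW12

open NumberField Module
open Pool.Agent.TH716.TW

/-- `x³ + x² - 2x - 1` has no rational root -/
lemma no_rat_root (s : ℚ) : s ^ 3 + s ^ 2 - 2 * s - 1 ≠ 0 := by
  intro h
  have hd : (s.den : ℚ) ≠ 0 := by exact_mod_cast s.den_nz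
  have hs : s = (s.num : ℚ) / (s.den : ℚ) := (Rat.num_div_den s).symm
  have h1 : (s.num : ℚ) ^ 3 + (s.num : ℚ) ^ 2 * s.den - 2 * s.num * (s.den : ℚ) ^ 2
      - (s.den : ℚ) ^ 3 = 0 := by
    have h2 : (s.num : ℚ) = s * s.den := by
      rw [eq_comm]
      exact Rat.mul_den_eq_num s
    rw [h2]
    linear_combination (s.den : ℚ) ^ 3 * h
  have h3 : (s.num) ^ 3 + (s.num) ^ 2 * (s.den : ℤ) - 2 * s.num * (s.den : ℤ) ^ 2
      - (s.den : ℤ) ^ 3 = 0 := by exact_mod_cast h1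
  have key : ∀ x y : ZMod 2, x ^ 3 + x ^ 2 * y - 2 * x * y ^ 2 - y ^ 3 = 0 → x = 0 ∧ y = 0 := by
    decide
  have h4 := congrArg (fun z : ℤ => (z : ZMod 2)) h3
  push_cast at h4
  obtain ⟨k1, k2⟩ := key _ _ h4
  have d1 : (2 : ℤ) ∣ s.num := (ZMod.intCast_zmod_eq_zero_iff_dvd s.num 2).mp k1
  have d2 : 2 ∣ s.den := (ZMod.natCast_eq_zero_iff s.den 2).mp k2
  have d3 : 2 ∣ s.num.natAbs := Int.natCast_dvd.mp d1
  have := Nat.dvd_gcd d3 d2
  rw [s.reduced] at this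
  omega

section quad

variable {K : Type} [Field K] [NumberField K] {Δ : ℚ} (hΔ : Δ < 0) {r : K}
  (hr : r ^ 2 = (Δ : K)) (hrep : ∀ x : K, ∃ p q : ℚ, x = (p : K) + (q : K) * r)

include hΔ hr in
lemma uniq {p q : ℚ} (h : (p : K) + (q : K) * r = 0) : p = 0 ∧ q = 0 := by
  by_cases hq : q = 0
  · subst hq
    rw [Rat.cast_zero, zero_mul, add_zero] at h
    exact ⟨by exact_mod_cast h, rfl⟩
  · exfalso
    have hqK : (q : K) ≠ 0 := by exact_mod_cast hq
    have h1 : ((p ^ 2 : ℚ) : K) = ((q ^ 2 * Δ : ℚ) : K) := by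
      push_cast
      rw [← hr]
      linear_combination ((p : K) - q * r) * h
    have h2 : p ^ 2 = q ^ 2 * Δ := by exact_mod_cast h1
    have h3 : 0 < q ^ 2 := by positivity
    nlinarith [sq_nonneg p]

include hΔ hr hrep in
lemma finrank_two : finrank ℚ K = 2 := by
  have hli : LinearIndependent ℚ ![(1 : K), r] := by
    rw [LinearIndependent.pair_iff]
    intro s t h
    rw [Rat.smul_def, Rat.smul_def, mul_one] at h
    exact uniq hΔ hr h
  have hsp : ⊤ ≤ Submodule.span ℚ (Set.range ![(1 : K), r]) := by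
    intro x _
    obtain ⟨p, q, rfl⟩ := hrep x
    have h1 : (1 : K) ∈ Submodule.span ℚ (Set.range ![(1 : K), r]) :=
      Submodule.subset_span ⟨0, rfl⟩
    have h2 : r ∈ Submodule.span ℚ (Set.range ![(1 : K), r]) :=
      Submodule.subset_span ⟨1, rfl⟩
    have h3 := Submodule.add_mem _ (Submodule.smul_mem _ p h1) (Submodule.smul_mem _ q h2)
    rw [Rat.smul_def, Rat.smul_def, mul_one] at h3
    exact h3
  have := Module.finrank_eq_card_basis (Basis.mk hli hsp)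
  simpa using this

include hΔ hr hrep in
lemma no_root (z : K) : z ^ 3 + z ^ 2 - 2 * z - 1 ≠ 0 := by
  intro h
  obtain ⟨p, q, rfl⟩ := hrep z
  have h1 : ((p ^ 3 + 3 * p * q ^ 2 * Δ + p ^ 2 + q ^ 2 * Δ - 2 * p - 1 : ℚ) : K) +
      ((3 * p ^ 2 * q + q ^ 3 * Δ + 2 * p * q - 2 * q : ℚ) : K) * r = 0 := by
    push_cast
    rw [← hr]
    linear_combination h
  obtain ⟨hA, hB⟩ := uniq hΔ hr h1
  by_cases hq : q = 0
  · subst hq
    apply no_rat_root p
    linear_combination hA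
  · have hB' : 3 * p ^ 2 + q ^ 2 * Δ + 2 * p - 2 = 0 := by
      have : q * (3 * p ^ 2 + q ^ 2 * Δ + 2 * p - 2) = 0 := by linear_combination hB
      exact (mul_eq_zero.mp this).resolve_left hq
    apply no_rat_root (-1 - 2 * p)
    linear_combination hA - (3 * p + 1) * hB'

include hΔ hr in
lemma no_real : IsEmpty (K →+* ℝ) := by
  refine ⟨fun f => ?_⟩
  have h := congrArg f hr
  rw [map_pow, map_ratCast] at h
  have h2 : (Δ : ℝ) < 0 := by exact_mod_cast hΔ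
  nlinarith [sq_nonneg (f r)]

include hΔ hr in
lemma ramified (hodd : Odd (padicValRat 7 Δ)) : ∃ p : Ideal (𝓞 K), p ^ 2 = Ideal.span {7} := by
  have h7 : Nat.Prime 7 := by norm_num
  have := Fact.mk h7
  have hnum : Δ.num < 0 := Rat.num_neg.mpr hΔ
  have hden : 0 < Δ.den := Δ.den_pos
  have hN0 : Δ.num.natAbs * Δ.den ≠ 0 := by
    apply mul_ne_zero
    · omega
    · omega
  obtain ⟨k, w, hw, hn⟩ := Nat.exists_eq_pow_mul_and_not_dvd hN0 7 (by norm_num)
  have hk : padicValNat 7 (Δ.num.natAbs * Δ.den) = k := by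
    have hw0 : w ≠ 0 := by
      rintro rfl
      simp at hw
    rw [hn, padicValNat.mul (by positivity) hw0, padicValNat.prime_pow,
      padicValNat.eq_zero_of_not_dvd hw, add_zero]
  rw [padicValNat.mul (by omega) (by omega)] at hk
  have hkodd : Odd k := by
    rw [padicValRat, padicValInt] at hodd
    rw [← hk]
    rw [Int.odd_iff] at hodd
    rw [Nat.odd_iff]
    omega
  obtain ⟨j, hj⟩ := hkodd
  have hjK : ((7 : K) ^ j) ≠ 0 := pow_ne_zero j (by norm_num)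
  set δ : K := r * (Δ.den : K) / 7 ^ j with hδ
  have hδ2 : δ ^ 2 = ((-(7 * (w : ℤ)) : ℤ) : K) := by
    have e1 : (Δ : K) * (Δ.den : K) = (Δ.num : K) := by
      have := Rat.mul_den_eq_num Δ
      exact_mod_cast congrArg (fun z : ℚ => (z : K)) this
    have e2 : ((Δ.num : ℤ) : K) * (Δ.den : K) = -((7 : K) ^ k * w) := by
      have e3 : Δ.num * (Δ.den : ℤ) = -((7 : ℤ) ^ k * w) := by
        have e4 : ((Δ.num.natAbs * Δ.den : ℕ) : ℤ) = ((7 ^ k * w : ℕ) : ℤ) := by rw [hn]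
        push_cast at e4
        rw [abs_of_neg hnum] at e4
        linarith
      exact_mod_cast congrArg (fun z : ℤ => (z : K)) e3
    rw [hδ, div_pow, mul_pow, hr, div_eq_iff (pow_ne_zero 2 hjK)]
    have e5 : (Δ : K) * (Δ.den : K) ^ 2 = -((7 : K) ^ k * w) := by
      rw [← e2, ← e1]
      ring
    rw [e5, hj]
    push_cast
    ring
  have hint : IsIntegral ℤ δ := by
    apply IsIntegral.of_pow (n := 2) (by norm_num)
    rw [hδ2]
    exact isIntegral_algebraMap (R := ℤ) (A := K) (x := -(7 * (w : ℤ)))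
  let d : 𝓞 K := ⟨δ, hint⟩
  have hd : d ^ 2 = -(7 * (w : 𝓞 K)) := by
    apply RingOfIntegers.ext
    show δ ^ 2 = algebraMap (𝓞 K) K (-(7 * (w : 𝓞 K)))
    rw [hδ2, map_neg, map_mul, map_natCast, map_ofNat]
    push_cast
    ring
  refine ⟨Ideal.span {7, d}, ?_⟩
  have hcop : IsCoprime (7 : ℤ) (w : ℤ) := by
    rw [show (7 : ℤ) = ((7 : ℕ) : ℤ) by norm_num, Nat.isCoprime_iff_coprime]
    exact (Nat.Prime.coprime_iff_not_dvd h7).mpr hw
  obtain ⟨u, v, huv⟩ := hcop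
  have huvK : (u : 𝓞 K) * 7 + (v : 𝓞 K) * (w : 𝓞 K) = 1 := by
    exact_mod_cast congrArg (fun z : ℤ => (z : 𝓞 K)) huv
  apply le_antisymm
  · rw [pow_two, Ideal.span_pair_mul_span_pair, Ideal.span_le]
    intro x hx
    simp only [Set.mem_insert_iff, Set.mem_singleton_iff] at hx
    rw [SetLike.mem_coe, Ideal.mem_span_singleton]
    rcases hx with rfl | rfl | rfl | rfl
    · exact ⟨7, rfl⟩
    · exact ⟨d, rfl⟩
    · exact ⟨d, mul_comm _ _⟩
    · exact ⟨-(w : 𝓞 K), by rw [← pow_two, hd]; ring⟩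
  · rw [Ideal.span_le]
    intro x hx
    rw [Set.mem_singleton_iff] at hx
    subst hx
    rw [SetLike.mem_coe]
    have m1 : (7 : 𝓞 K) ∈ Ideal.span {7, d} := Ideal.subset_span (by simp)
    have m2 : d ∈ Ideal.span {7, d} := Ideal.subset_span (by simp)
    have m3 : (7 : 𝓞 K) * 7 ∈ Ideal.span {7, d} ^ 2 := by
      rw [pow_two]
      exact Ideal.mul_mem_mul m1 m1
    have m4 : d * d ∈ Ideal.span {7, d} ^ 2 := by
      rw [pow_two]
      exact Ideal.mul_mem_mul m2 m2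
    have e : (7 : 𝓞 K) = (u : 𝓞 K) * (7 * 7) + (-(v : 𝓞 K)) * (d * d) := by
      rw [← pow_two d, hd]
      linear_combination (-7 : 𝓞 K) * huvK
    have m5 := Ideal.add_mem _ (Ideal.mul_mem_left _ (u : 𝓞 K) m3)
      (Ideal.mul_mem_left _ (-(v : 𝓞 K)) m4)
    rw [← e] at m5
    exact m5

end quad

/-- the norm form -/
lemma norm_form {M : Type} [Field M] {t x y w : M} (ht : t ^ 3 + t ^ 2 - 2 * t - 1 = 0) :
    (x + y * t + w * t ^ 2) * (x + y * (t ^ 2 - 2) + w * (-t ^ 2 - t + 3)) *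
      (x + y * (-t ^ 2 - t + 1) + w * (t + 2)) =
    x ^ 3 - x ^ 2 * y + 5 * x ^ 2 * w - 2 * x * y ^ 2 - x * y * w + 6 * x * w ^ 2 + y ^ 3 -
      y ^ 2 * w - 2 * y * w ^ 2 + w ^ 3 := by
  linear_combination ((-1) * t ^ 3 * y ^ 2 * w + 1 * t ^ 3 * y * w ^ 2 + (-1) * t ^ 2 * y ^ 3 +
    1 * t ^ 2 * y ^ 2 * w + 2 * t ^ 2 * y * w ^ 2 + (-1) * t ^ 2 * w ^ 3 + (-1) * t * x * y ^ 2 +
    1 * t * x * y * w + (-1) * t * x * w ^ 2 + 3 * t * y ^ 2 * w + (-2) * t * y * w ^ 2 +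
    (-2) * t * w ^ 3 + 1 * y ^ 3 + (-1) * y ^ 2 * w + (-2) * y * w ^ 2 + 1 * w ^ 3) * ht

end Pool.Agent.TH699.TW12
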