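import Pool.Agent.TH716.TW.Defs

/-!
Orders of elements of a number field at a prime, for job 1416 (TW12).
-/

set_option autoImplicit false

namespace Pool.Agent.TH699.TW12

open NumberField IsDedekindDomain FractionalIdeal
open scoped nonZeroDivisors

variable {K : Type} [Field K] [NumberField K] (v : HeightOneSpectrum (𝓞 K))

/-- the order of `x` at `v` -/
noncomputable def o (x : K) : ℤ :=
  FractionalIdeal.count K v (FractionalIdeal.spanSingleton (𝓞 K)⁰ x)

lemma ss_ne {x : K} (hx : x ≠ 0) : spanSingleton (𝓞 K)⁰ x ≠ 0 := by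
  rwa [Ne, spanSingleton_eq_zero_iff]

lemma o_mul {x y : K} (hx : x ≠ 0) (hy : y ≠ 0) : o v (x * y) = o v x + o v y := by
  unfold o
  rw [← spanSingleton_mul_spanSingleton, count_mul K v (ss_ne hx) (ss_ne hy)]

lemma o_one : o v (1 : K) = 0 := by
  unfold o
  rw [spanSingleton_one, count_one]

lemma val_eq {x : K} (hx : x ≠ 0) : v.valuation K x = WithZero.exp (-(o v x)) := by
  obtain ⟨r, s, hs, rfl⟩ := IsFractionRing.div_surjective (A := 𝓞 K) x
  have hs0 : s ≠ 0 := nonZeroDivisors.ne_zero hs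
  have hr0 : r ≠ 0 := by
    rintro rfl
    simp at hx
  rw [map_div₀, HeightOneSpectrum.valuation_of_algebraMap, HeightOneSpectrum.valuation_of_algebraMap,
    HeightOneSpectrum.intValuation_if_neg v hr0, HeightOneSpectrum.intValuation_if_neg v hs0,
    ← WithZero.exp_sub]
  congr 1
  unfold o
  rw [count_well_defined K v (ss_ne hx) (a := s) (J := Ideal.span {r})]
  · ring
  · rw [coeIdeal_span_singleton, spanSingleton_mul_spanSingleton]
    congr 1
    rw [div_eq_mul_inv, mul_comm]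

lemma o_add {x y : K} (hx : x ≠ 0) (hy : y ≠ 0) (hxy : x + y ≠ 0) :
    min (o v x) (o v y) ≤ o v (x + y) := by
  have h := (v.valuation K).map_add x y
  rw [val_eq v hx, val_eq v hy, val_eq v hxy] at h
  rcases le_max_iff.mp h with h | h
  · rw [WithZero.exp_le_exp] at h
    omega
  · rw [WithZero.exp_le_exp] at h
    omega

lemma o_neg {x : K} (hx : x ≠ 0) : o v (-x) = o v x := by
  have h := (v.valuation K).map_neg x
  rw [val_eq v hx, val_eq v (neg_ne_zero.mpr hx), WithZero.exp_inj] at h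
  omega

lemma o_add_eq {x y : K} (hx : x ≠ 0) (hy : y ≠ 0) (h : o v x < o v y) :
    x + y ≠ 0 ∧ o v (x + y) = o v x := by
  have hxy : x + y ≠ 0 := by
    intro h0
    have : y = -x := by linear_combination h0
    rw [this, o_neg v hx] at h
    exact lt_irrefl _ h
  refine ⟨hxy, ?_⟩
  have h1 := o_add v hx hy hxy
  have h2 := o_add v hxy (neg_ne_zero.mpr hy) (by rwa [add_neg_cancel_right])
  rw [add_neg_cancel_right, o_neg v hy] at h2
  omega

lemma o_int_nonneg {x : 𝓞 K} (hx : x ≠ 0) : 0 ≤ o v (x : K) := by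
  have hx' : (x : K) ≠ 0 := by
    rwa [Ne, RingOfIntegers.coe_eq_zero_iff]
  have h := v.valuation_le_one (K := K) x
  have h2 := val_eq v hx'
  rw [RingOfIntegers.coe_eq_algebraMap] at h2
  rw [h2, ← WithZero.exp_zero, WithZero.exp_le_exp] at h
  rw [RingOfIntegers.coe_eq_algebraMap]
  omega

lemma o_int_not_mem {x : 𝓞 K} (hx : x ∉ v.asIdeal) : o v (x : K) = 0 := by
  have hx0 : x ≠ 0 := by
    rintro rfl
    exact hx v.asIdeal.zero_mem
  have hx' : (x : K) ≠ 0 := by
    rwa [Ne, RingOfIntegers.coe_eq_zero_iff]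
  have h := (HeightOneSpectrum.valuation_eq_one_iff_notMem (v := v) (K := K)).mpr hx
  have h2 := val_eq v hx'
  rw [RingOfIntegers.coe_eq_algebraMap] at h2
  rw [h2, ← WithZero.exp_zero, WithZero.exp_inj] at h
  rw [RingOfIntegers.coe_eq_algebraMap]
  omega

lemma o_pow {x : K} (hx : x ≠ 0) (n : ℕ) : o v (x ^ n) = n * o v x := by
  induction n with
  | zero => simp [o_one]
  | succ n ih =>
    rw [pow_succ, o_mul v (pow_ne_zero n hx) hx, ih]
    push_cast
    ring

lemma o_inv {x : K} (hx : x ≠ 0) : o v (x⁻¹) = - o v x := by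
  have h := o_mul v hx (inv_ne_zero hx)
  rw [mul_inv_cancel₀ hx, o_one] at h
  omega

/-- the prime number below `v` -/
lemma exists_prime : ∃ p f : ℕ, p.Prime ∧ ((p : ℕ) : 𝓞 K) ∈ v.asIdeal ∧ 0 < f ∧
    Ideal.absNorm v.asIdeal = p ^ f := by
  have : NeZero v.asIdeal := ⟨v.ne_bot⟩
  have hp := Nat.absNorm_under_prime v.asIdeal
  have hmem := Int.absNorm_under_mem v.asIdeal
  have hN := Ideal.absNorm_eq_pow_inertiaDeg' v.asIdeal hp
  refine ⟨_, _, hp, hmem, ?_, hN⟩
  rw [Nat.pos_iff_ne_zero]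
  intro h0
  rw [h0, pow_zero, Ideal.absNorm_eq_one_iff] at hN
  exact v.isPrime.ne_top hN

lemma o_nat {p : ℕ} (hp : p.Prime) (hpv : ((p : ℕ) : 𝓞 K) ∈ v.asIdeal) {n : ℕ} (hn : n ≠ 0) :
    o v (n : K) = o v (p : K) * padicValNat p n := by
  have := Fact.mk hp
  obtain ⟨k, m, hm, rfl⟩ := Nat.exists_eq_pow_mul_and_not_dvd hn p hp.ne_one
  have hm0 : m ≠ 0 := by
    rintro rfl
    simp at hm
  have hmv : ((m : ℕ) : 𝓞 K) ∉ v.asIdeal := by
    intro h
    have hc : Nat.Coprime p m := (Nat.Prime.coprime_iff_not_dvd hp).mpr hm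
    have h1 : ((1 : 𝓞 K)) ∈ v.asIdeal := by
      have hb := Nat.isCoprime_iff_coprime.mpr hc
      obtain ⟨a, b, hab⟩ := hb
      have : (1 : 𝓞 K) = (a : 𝓞 K) * ((p : ℕ) : 𝓞 K) + (b : 𝓞 K) * ((m : ℕ) : 𝓞 K) := by
        have := congrArg (fun z : ℤ => (z : 𝓞 K)) hab
        push_cast at this
        exact this.symm
      rw [this]
      exact v.asIdeal.add_mem (v.asIdeal.mul_mem_left _ hpv) (v.asIdeal.mul_mem_left _ h)
    exact v.isPrime.ne_top ((Ideal.eq_top_iff_one _).mpr h1)
  have h1 : o v (m : K) = 0 := by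
    have := o_int_not_mem v hmv
    simpa using this
  have hpK : ((p : ℕ) : K) ≠ 0 := by exact_mod_cast hp.ne_zero
  have hmK : ((m : ℕ) : K) ≠ 0 := by exact_mod_cast hm0
  rw [padicValNat.mul (pow_ne_zero k hp.ne_zero) hm0, padicValNat.prime_pow,
    padicValNat.eq_zero_of_not_dvd hm]
  push_cast
  rw [o_mul v (pow_ne_zero k hpK) hmK, o_pow v hpK, h1]
  ring

lemma o_rat {p : ℕ} (hp : p.Prime) (hpv : ((p : ℕ) : 𝓞 K) ∈ v.asIdeal) {x : ℚ} (hx : x ≠ 0) :
    o v (x : K) = o v (p : K) * padicValRat p x := by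
  have := Fact.mk hp
  have hn : x.num.natAbs ≠ 0 := by
    rw [Int.natAbs_ne_zero]
    exact Rat.num_ne_zero.mpr hx
  have hd : x.den ≠ 0 := x.den_nz
  have hnK : ((x.num.natAbs : ℕ) : K) ≠ 0 := by exact_mod_cast hn
  have hdK : ((x.den : ℕ) : K) ≠ 0 := by exact_mod_cast hd
  have h1 : o v ((x.num : ℤ) : K) = o v (p : K) * padicValNat p x.num.natAbs := by
    rw [← o_nat v hp hpv hn]
    rcases Int.natAbs_eq x.num with h | h
    · conv_lhs => rw [h]
      rw [Int.cast_natCast]
    · conv_lhs => rw [h]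
      rw [Int.cast_neg, Int.cast_natCast, o_neg v hnK]
  have hnK' : ((x.num : ℤ) : K) ≠ 0 := by exact_mod_cast Rat.num_ne_zero.mpr hx
  have h2 : (x : K) = ((x.num : ℤ) : K) * (((x.den : ℕ) : K))⁻¹ := by
    rw [← div_eq_mul_inv]
    exact Rat.cast_def x
  rw [h2, o_mul v hnK' (inv_ne_zero hdK), o_inv v hdK, h1, o_nat v hp hpv hd, padicValRat]
  unfold padicValInt
  push_cast
  ring

lemma mod_seven {p f : ℕ} (hp : p.Prime) (hf : 0 < f)
    (h : ¬ (p ^ f % 7 = 0 ∨ p ^ f % 7 = 1 ∨ p ^ f % 7 = 6)) : TH716.TW.I7 p := by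
  refine ⟨hp, ?_⟩
  by_contra hcon
  apply h
  have h7 : p % 7 = 0 ∨ p % 7 = 1 ∨ p % 7 = 6 := by omega
  rw [Nat.pow_mod]
  rcases h7 with h7 | h7 | h7
  · left
    rw [h7, Nat.zero_pow hf]
  · right; left
    rw [h7, one_pow]
    norm_num
  · rw [h7]
    clear h hcon h7
    induction f with
    | zero => omega
    | succ n ih =>
      rcases Nat.eq_zero_or_pos n with h0 | h0
      · subst h0
        right; right
        norm_num
      · rcases ih h0 with h1 | h1 | h1
        · exfalso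
          have h2 : 7 ∣ 6 ^ n := Nat.dvd_of_mod_eq_zero h1
          have h3 := Nat.Prime.dvd_of_dvd_pow (by norm_num) h2
          omega
        · right; right
          rw [pow_succ, Nat.mul_mod, h1]
        · right; left
          rw [pow_succ, Nat.mul_mod, h1]

/-- the divisibility condition of the norm theorem -/
lemma div3 {S μ : ℚ} (hμ : μ ≠ 0) {m m' : K} (hm : m ≠ 0) (hm' : m' ≠ 0)
    (h1 : m + m' = -(S : K)) (h2 : m * m' = (μ : K) ^ 3)
    (hyp : ∀ p, TH716.TW.I7 p → S = 0 ∨ 3 ∣ padicValRat p S ∨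
      3 * padicValRat p μ ≤ 2 * padicValRat p S)
    (hv : ¬ (Ideal.absNorm v.asIdeal % 7 = 0 ∨ Ideal.absNorm v.asIdeal % 7 = 1 ∨
      Ideal.absNorm v.asIdeal % 7 = 6)) : 3 ∣ o v m := by
  obtain ⟨p, f, hp, hpv, hf, hN⟩ := exists_prime v
  rw [hN] at hv
  have hI := mod_seven hp hf hv
  have hμK : (μ : K) ≠ 0 := by exact_mod_cast hμ
  have hpK : o v (p : K) ≥ 0 := by
    have := o_int_nonneg v (x := ((p : ℕ) : 𝓞 K)) (by exact_mod_cast hp.ne_zero)
    simpa using this
  have hprod : o v m + o v m' = 3 * (o v (p : K) * padicValRat p μ) := by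
    rw [← o_mul v hm hm', h2, o_pow v hμK, o_rat v hp hpv hμ]
    norm_num
  by_cases hEq : o v m = o v m'
  · have : 2 * o v m = 3 * (o v (p : K) * padicValRat p μ) := by omega
    omega
  · -- the orders are different
    have hS : S ≠ 0 ∧ o v (S : K) = min (o v m) (o v m') := by
      have hS' : (-(S : K)) ≠ 0 ∧ o v (-(S : K)) = min (o v m) (o v m') := by
        rw [← h1]
        rcases lt_or_gt_of_ne hEq with hlt | hlt
        · have := o_add_eq v hm hm' hlt
          refine ⟨this.1, ?_⟩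
          rw [this.2]
          omega
        · have := o_add_eq v hm' hm hlt
          rw [add_comm m m']
          refine ⟨this.1, ?_⟩
          rw [this.2]
          omega
      have hSK : (S : K) ≠ 0 := neg_ne_zero.mp hS'.1
      refine ⟨by exact_mod_cast hSK, ?_⟩
      rw [← hS'.2, o_neg v hSK]
    obtain ⟨hS0, hSo⟩ := hS
    rw [o_rat v hp hpv hS0] at hSo
    rcases hyp p hI with h | h | h
    · exact absurd h hS0
    · obtain ⟨c, hc⟩ := h
      rw [hc] at hSo
      have h3 : (3 : ℤ) ∣ min (o v m) (o v m') := ⟨o v (p : K) * c, by rw [← hSo]; ring⟩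
      rcases le_total (o v m) (o v m') with hle | hle
      · rwa [min_eq_left hle] at h3
      · rw [min_eq_right hle] at h3
        omega
    · exfalso
      have h4 : o v (p : K) * (3 * padicValRat p μ) ≤ o v (p : K) * (2 * padicValRat p S) :=
        mul_le_mul_of_nonneg_left h hpK
      have h5 : o v (p : K) * (2 * padicValRat p S) = 2 * min (o v m) (o v m') := by
        rw [← hSo]; ring
      have h6 : o v (p : K) * (3 * padicValRat p μ) = o v m + o v m' := by
        rw [hprod]; ring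
      omega

end Pool.Agent.TH699.TW12
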